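import Pool.Agent.Helper43.GD.St

/-! Project GD (MP_b3ce06_al), module CMB. -/

set_option autoImplicit false

namespace Pool.Agent.Helper80.GD

open Pool.Agent.Helper43.GD

theorem hCMB (hP3 : StP3) : StCMB := by
  intro L A _ _ Q u s s' hs hs' hunit hgn
  have hp3 := hP3 L A Q u s s' hs hs'
  have hsU : s ∈ Q.U := hs.1
  -- `om(u) h(s) = h(s)⁻¹ om(u)`
  have hc : Q.om u * Q.h s = (Q.h s)⁻¹ * Q.om u := mul_inv_eq_iff_eq_mul.1 hs.2
  -- conjugation of `F` by `h(s)⁻¹`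
  have hF : ∀ b : L, (Q.h s)⁻¹ * Q.F b * Q.h s = Q.F ((s : L) * b) := by
    intro b
    have e := (Q.tor s hsU).inv
    have e2 := e.2 b
    rw [inv_inv, inv_inv] at e2
    exact e2
  -- the additive subgroup
  let N : AddSubgroup L :=
    { carrier := {y : L | Q.om u * Q.E ((u : L) * y) * (Q.om u)⁻¹ = Q.F (-(((u⁻¹ : Lˣ) : L) * y))}
      zero_mem' := by
        change Q.om u * Q.E ((u : L) * 0) * (Q.om u)⁻¹ = Q.F (-(((u⁻¹ : Lˣ) : L) * 0))
        rw [mul_zero, mul_zero, neg_zero, Q.E_zero, Q.F_zero, mul_one, mul_inv_cancel]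
      add_mem' := by
        intro y z hy hz
        change Q.om u * Q.E ((u : L) * y) * (Q.om u)⁻¹ = Q.F (-(((u⁻¹ : Lˣ) : L) * y)) at hy
        change Q.om u * Q.E ((u : L) * z) * (Q.om u)⁻¹ = Q.F (-(((u⁻¹ : Lˣ) : L) * z)) at hz
        change Q.om u * Q.E ((u : L) * (y + z)) * (Q.om u)⁻¹ =
          Q.F (-(((u⁻¹ : Lˣ) : L) * (y + z)))
        have e1 : (u : L) * (y + z) = (u : L) * y + (u : L) * z := by ring
        have e2 : -(((u⁻¹ : Lˣ) : L) * (y + z)) =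
            -(((u⁻¹ : Lˣ) : L) * y) + -(((u⁻¹ : Lˣ) : L) * z) := by ring
        rw [e1, e2, Q.Eadd, Q.Fadd, ← hy, ← hz]
        group
      neg_mem' := by
        intro y hy
        change Q.om u * Q.E ((u : L) * y) * (Q.om u)⁻¹ = Q.F (-(((u⁻¹ : Lˣ) : L) * y)) at hy
        change Q.om u * Q.E ((u : L) * (-y)) * (Q.om u)⁻¹ =
          Q.F (-(((u⁻¹ : Lˣ) : L) * (-y)))
        have e1 : (u : L) * (-y) = -((u : L) * y) := by ring
        have e2 : -(((u⁻¹ : Lˣ) : L) * (-y)) = -(-(((u⁻¹ : Lˣ) : L) * y)) := by ring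
        rw [e1, e2, Q.E_neg, Q.F_neg, ← hy]
        group }
  have hN : ∀ y : L, y ∈ N ↔
      Q.om u * Q.E ((u : L) * y) * (Q.om u)⁻¹ = Q.F (-(((u⁻¹ : Lˣ) : L) * y)) := fun y => Iff.rfl
  -- stability
  have hst : ∀ y ∈ N, (s : L) * y ∈ N := by
    intro y hy
    rw [hN] at hy ⊢
    have e1 : (u : L) * ((s : L) * y) = (s : L) * ((u : L) * y) := by ring
    have e2 : -(((u⁻¹ : Lˣ) : L) * ((s : L) * y)) = (s : L) * (-(((u⁻¹ : Lˣ) : L) * y)) := by ring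
    rw [e1, e2, ← Q.h_E hsU, ← hF, ← hy]
    have hc' : (Q.h s)⁻¹ * (Q.om u)⁻¹ = (Q.om u)⁻¹ * Q.h s := by
      have := congrArg (fun z => z⁻¹) hc
      simpa [mul_inv_rev] using this
    calc Q.om u * (Q.h s * Q.E ((u : L) * y) * (Q.h s)⁻¹) * (Q.om u)⁻¹
        = (Q.om u * Q.h s) * Q.E ((u : L) * y) * ((Q.h s)⁻¹ * (Q.om u)⁻¹) := by group
      _ = ((Q.h s)⁻¹ * Q.om u) * Q.E ((u : L) * y) * ((Q.om u)⁻¹ * Q.h s) := by rw [hc, hc']
      _ = _ := by group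
  -- `y₀ ∈ N`
  have hy0 : (1 - (s : L)) * (1 - (s' : L)) ∈ N := (hN _).2 hp3
  obtain ⟨v, hv⟩ := hunit
  -- `{z : z y₀ ∈ N}` is everything
  let N' : AddSubgroup L := N.comap (AddMonoidHom.mulRight (v : L))
  have hN' : ∀ z : L, z ∈ N' ↔ z * (v : L) ∈ N := fun z => Iff.rfl
  have hall : ∀ z : L, z ∈ N' := by
    intro z
    apply hgn N'
    · rw [hN', one_mul, hv]; exact hy0
    · intro y hy
      rw [hN'] at hy ⊢
      rw [mul_assoc]
      exact hst _ hy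
  have hfull : ∀ y : L, y ∈ N := by
    intro y
    have := (hN' _).1 (hall (y * ((v⁻¹ : Lˣ) : L)))
    rwa [Units.inv_mul_cancel_right] at this
  have huu : (u : L) * ((u⁻¹ : Lˣ) : L) = 1 := u.mul_inv
  -- first Weyl relation
  have hE : ∀ a : L, Q.om u * Q.E a * (Q.om u)⁻¹ =
      Q.F (-(((u⁻¹ : Lˣ) : L) * ((u⁻¹ : Lˣ) : L) * a)) := by
    intro a
    have := (hN _).1 (hfull (((u⁻¹ : Lˣ) : L) * a))
    rw [Units.mul_inv_cancel_left] at this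
    rw [this, mul_assoc]
  -- inverse form
  have hEi : ∀ b : L, (Q.om u)⁻¹ * Q.F b * Q.om u = Q.E (-((u : L) * (u : L) * b)) := by
    intro b
    have := hE (-((u : L) * (u : L) * b))
    have e : -(((u⁻¹ : Lˣ) : L) * ((u⁻¹ : Lˣ) : L) * (-((u : L) * (u : L) * b))) = b := by
      linear_combination (b * ((u : L) * ((u⁻¹ : Lˣ) : L) + 1)) * huu
    rw [e] at this
    rw [← this]; group
  -- conjugate by `h(-1)`
  have hneg : Q.h (-1) * Q.om u * (Q.h (-1))⁻¹ = (Q.om u)⁻¹ := by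
    rw [← Q.om_smul Q.neg, neg_one_mul, Q.om_neg]
  have hneg' : Q.h (-1) * (Q.om u)⁻¹ * (Q.h (-1))⁻¹ = Q.om u := by
    have := congrArg (fun z => z⁻¹) hneg
    simp only [inv_inv] at this
    calc Q.h (-1) * (Q.om u)⁻¹ * (Q.h (-1))⁻¹ = (Q.h (-1) * Q.om u * (Q.h (-1))⁻¹)⁻¹ := by group
      _ = Q.om u := this
  have hW : ∀ b : L, Q.om u * Q.F b * (Q.om u)⁻¹ = Q.E (-((u : L) * (u : L) * b)) := by
    intro b
    have h1 := hEi (-b)
    have h2 : Q.h (-1) * ((Q.om u)⁻¹ * Q.F (-b) * Q.om u) * (Q.h (-1))⁻¹ =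
        Q.h (-1) * Q.E (-((u : L) * (u : L) * (-b))) * (Q.h (-1))⁻¹ := by rw [h1]
    rw [Q.neg_E] at h2
    have e : -(-((u : L) * (u : L) * (-b))) = -((u : L) * (u : L) * b) := by ring
    rw [e] at h2
    rw [← h2]
    calc Q.om u * Q.F b * (Q.om u)⁻¹
        = (Q.h (-1) * (Q.om u)⁻¹ * (Q.h (-1))⁻¹) * (Q.h (-1) * Q.F (-b) * (Q.h (-1))⁻¹) *
            (Q.h (-1) * Q.om u * (Q.h (-1))⁻¹) := by
          rw [hneg, hneg', Q.neg_F, neg_neg]
      _ = _ := by group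
  exact (Q.weyl u).2 ⟨hE, hW⟩

end Pool.Agent.Helper80.GD
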